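import Pool.Agent.H24.L5.KGN

/-!
# L5, row CLK: the inequality in one class
-/

set_option autoImplicit false

namespace Pool.L5

open Finset Real
open Pool.Agent.H49.Ent Pool.Agent.H32.Dense Pool.STK Pool.KA Pool.GP Pool.KRN

lemma Det_Lb {m j J : ℕ} (F : Pool.KA.Fam m J) (M : Fin j → Fin m → ℝ) :
    Det F.p F.l (Lb F M) := fun ω ω' _ _ h => Lb_of_l F M ω ω' h

theorem clk : CLKStmt := by
  intro hCOA hTWF hKCH hKGN K C N hK4
  obtain ⟨C₁, hC₁, hcoa⟩ := hCOA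
  obtain ⟨B₁, hkgn⟩ := hKGN hTWF 4 2 N 3 (by norm_num) (by norm_num)
  obtain ⟨B₂, hkch⟩ := hKCH 4 2 2 C 3 (by norm_num)
  obtain ⟨B, hB⟩ : ∃ B : ℝ, B = 2 * (|B₁| * (C₁ + 1)) + |B₂| + 6 * Real.log 3 := ⟨_, rfl⟩
  have hlog3 : 0 < Real.log 3 := Real.log_pos (by norm_num)
  have hlog2 : 0 < Real.log 2 := Real.log_pos (by norm_num)
  refine ⟨B, by rw [hB]; positivity, ?_⟩
  intro J G g F κ A a hl b τ n₀ e hG hg hu ha hτ he hBd hmin
  obtain ⟨q, hq⟩ : ∃ q, q = cond F.p A a := ⟨_, rfl⟩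
  have hlq : IsLaw q := hq ▸ hl
  obtain ⟨L, hL⟩ : ∃ L : ℝ, L = J * Real.log 2 := ⟨_, rfl⟩
  obtain ⟨x, hx⟩ : ∃ x : ℝ, x = (g n₀ : ℝ) * Real.log 2 := ⟨_, rfl⟩
  obtain ⟨S, hS⟩ : ∃ S : ℝ, S = Sl (F.res A a hl) := ⟨_, rfl⟩
  obtain ⟨Kq, hKq⟩ : ∃ Kq : ℝ, Kq = Kl (F.res A a hl) := ⟨_, rfl⟩
  obtain ⟨Gq, hGq⟩ : ∃ Gq : ℝ, Gq = Gl (F.res A a hl) := ⟨_, rfl⟩
  obtain ⟨P, hP⟩ : ∃ P : ℝ, P = Real.log (law F.p A a) := ⟨_, rfl⟩
  have hG0 : 0 ≤ Gq := by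
    rw [hGq]
    exact Gf_tz_nonneg (F.res A a hl) hl.nonneg (F.res A a hl).l
  -- energies
  have hen : ∀ l : Fin 2, Gf (2 ^ J) (cond F.p A a) (Lb F (r1 b (τ l))) (tz F) ≤
      C₁ * (Gq + 1) := by
    intro l
    rw [hGq]
    exact hcoa J F.Ω _ _ (cond F.p A a) F.l (Lb F (r1 b (τ l))) (tz F) hl.nonneg hl.sum_one
      (fun ω _ => ⟨Int.natCast_nonneg _, by
        have := F.tim ω
        unfold tz
        exact_mod_cast this⟩) (Det_Lb (F.res A a hl) (r1 b (τ l)))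
  -- one functional
  have hgen : ∀ l : Fin 2, H q (Lb F (r1 b (τ l))) / 2 + CH q (F.D (g n₀)) (Lb F (r1 b (τ l))) +
      2 * (L - x) + P + L ≤ S + 3 * Kq + e + |B₁| * (C₁ + 1) * (Gq + 1) + 2 * G * Real.log 2 := by
    intro l
    have h1 := hkgn J G g F κ A a hl (r1 b (τ l)) n₀ e hg ha (fun _ => hG.le _)
      (fun r => hBd _ (mq_le r) _ _) (hmin l)
    have h2 : ((2 * (J - g n₀) : ℕ) : ℝ) * Real.log 2 = 2 * (L - x) := by
      push_cast
      rw [Nat.cast_sub (hg.le n₀), hL, hx]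
      ring
    rw [h2, ← hS, ← hKq, ← hP, ← hL, ← hq] at h1
    have h3 := hen l
    rw [← hq] at h3
    have h4 : 0 ≤ Gf (2 ^ J) q (Lb F (r1 b (τ l))) (tz F) + 1 := by
      have := Gf_tz_nonneg F hlq.nonneg (Lb F (r1 b (τ l)))
      linarith
    have h5 : B₁ * (Gf (2 ^ J) q (Lb F (r1 b (τ l))) (tz F) + 1) ≤
        |B₁| * (C₁ + 1) * (Gq + 1) := by
      calc B₁ * (Gf (2 ^ J) q (Lb F (r1 b (τ l))) (tz F) + 1) ≤
            |B₁| * (Gf (2 ^ J) q (Lb F (r1 b (τ l))) (tz F) + 1) :=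
            mul_le_mul_of_nonneg_right (le_abs_self _) h4
        _ ≤ |B₁| * (C₁ * (Gq + 1) + (Gq + 1)) :=
            mul_le_mul_of_nonneg_left (by linarith) (abs_nonneg _)
        _ = _ := by ring
    push_cast at h1
    linarith
  -- the chain
  have hc2 : 2 * H q (F.D J) - 2 * L - H q (Lb F (fun l => b (τ l))) + L ≤
      S + 5 * Kq + 2 * e + |B₂| := by
    obtain ⟨c, hc, hdet⟩ := exists_compl (j := 2) (j' := 2) hG hK4 (by norm_num) τ hτ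
    have h1 := hkch J (F.res A a hl) (fun l => b (τ l)) c (fun _ => hG.le _) hc hdet e
      (hBd _ (fun _ => hG.le _) _ _) (hBd _ hc _ _)
    have e1 : H (F.res A a hl).p ((F.res A a hl).D J) = H q (F.D J) := by rw [hq]; rfl
    have e2 : H (F.res A a hl).p (Lb (F.res A a hl) (fun l => b (τ l))) =
        H q (Lb F (fun l => b (τ l))) := by rw [hq]; rfl
    rw [e1, e2, ← hS, ← hKq, ← hL] at h1
    have h2 := le_abs_self B₂
    push_cast at h1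
    linarith
  have hs2 := sub_two F hlq b τ (F.D (g n₀))
  -- coarse directions
  have hDg : H q (F.D J) ≤ H q (F.D (g n₀)) + 4 * (L - x) + 4 * Real.log 3 := by
    have h1 := H_trc F hlq (hg.le n₀)
    have h2 : ((4 : ℕ) : ℝ) * (((J : ℝ) - g n₀) * Real.log 2 + Real.log 3) =
        4 * (L - x) + 4 * Real.log 3 := by
      rw [hL, hx]
      push_cast
      ring
    rw [h2] at h1
    linarith
  -- lines
  have hH1 : ∀ l : Fin 2, H q (Lb F (r1 b (τ l))) ≤ 2 * L + 2 * Real.log 3 := by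
    intro l
    have h1 := H_L1 F hu hlq hG.le (τ l)
    rw [← hL] at h1
    linarith
  have g0 := hgen 0
  have g1 := hgen 1
  have l0 := hH1 0
  have l1 := hH1 1
  have hlg : 2 * (G : ℝ) * Real.log 2 ≤ 2 * G * 1 := by
    have : Real.log 2 ≤ 1 := by
      have := Real.log_le_sub_one_of_pos (by norm_num : (0 : ℝ) < 2)
      linarith
    exact mul_le_mul_of_nonneg_left this (by positivity)
  have hGn : (0 : ℝ) ≤ G := Nat.cast_nonneg G
  have hB2 : 2 * (|B₁| * (C₁ + 1) * (Gq + 1)) + |B₂| + 6 * Real.log 3 ≤ B * (Gq + 1) := by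
    have h1 : (|B₂| + 6 * Real.log 3) * 1 ≤ (|B₂| + 6 * Real.log 3) * (Gq + 1) :=
      mul_le_mul_of_nonneg_left (by linarith) (by positivity)
    have h2 : B * (Gq + 1) = 2 * (|B₁| * (C₁ + 1) * (Gq + 1)) +
        (|B₂| + 6 * Real.log 3) * (Gq + 1) := by
      rw [hB]; ring
    rw [h2]
    linarith
  rw [← hq, ← hS, ← hKq, ← hGq, ← hP, ← hL]
  linarith

end Pool.L5
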