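import Pool.Agent.H24.L5.TWF
import Pool.Agent.H24.L5.CLK
import Pool.Agent.H36.L5.COA
import Pool.Agent.H67.L5.MBI
import Pool.Agent.H17.L5.KCH
import Pool.Agent.H42.L5.SMK
import Pool.Agent.H14.L5.IFK
import Pool.Agent.H64.L5.CTK
import Pool.Agent.H22.L5.DCK
import Pool.Agent.H88.L5.RSK
import Pool.Agent.H66.L5.LWK
import Pool.Agent.H37.PC.Q1T

/-!
# L5: the Kakeya maximal function estimate in dimension five, exponent `11/3` (assembly)
-/

set_option autoImplicit false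

namespace Pool.L5

open Finset Real MeasureTheory
open Pool.Agent.H53.Kak (E tube)

/-- The theorem in dimension five from the rows. -/
theorem fin5_of (coa : COAStmt) (twf : TWFStmt) (mbi : MBIStmt) (kch : KCHStmt) (kgn : KGNStmt)
    (clk : CLKStmt) (smk : SMKStmt) (ifk : IFKStmt) (ctk : CTKStmt) (dck : DCKStmt) (rsk : RSKStmt)
    (lwk : LWKStmt) : FIN5Stmt := by
  have ak : AK5 := smk mbi coa twf kch kgn clk Pool.PC.mb_three_thm
  have ag := ifk ak
  have ct : CtP 4 (4 / 3) (11 / 3) := ctk 4 (4 / 3) (11 / 3) (by norm_num) ag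
  have ct' : Ct 4 (4 / 3) (11 / 3) :=
    dck 4 (4 / 3) (11 / 3) (by norm_num) (by norm_num) (by norm_num) ct
  have rs : Rs 4 (4 / 3) (11 / 3) :=
    rsk 4 (4 / 3) (11 / 3) (by norm_num) (by norm_num) (by norm_num) ct'
  have hg : (1 : ℝ) + ((4 : ℕ) : ℝ) - 11 / 3 = 4 / 3 := by norm_num
  have rs' : Rs 4 (1 + ((4 : ℕ) : ℝ) - 11 / 3) (11 / 3) := by rw [hg]; exact rs
  intro q hq ε hε
  obtain ⟨C, hC⟩ := lwk 4 (11 / 3) (by norm_num) (by norm_num) (by norm_num) rs' q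
    (by norm_num; linarith) ε hε
  refine ⟨C, fun δ hδ hδ1 ι S c e hF => ?_⟩
  have h := hC δ hδ hδ1 ι S c e hF
  have e1 : (((4 : ℕ) : ℝ) + 1) / q - ((4 : ℕ) : ℝ) - ε = 5 / q - 4 - ε := by norm_num
  rw [e1] at h
  exact h

/-- **Dimension five, `q ≥ 11/8`.** -/
theorem fin5 : FIN5Stmt :=
  fin5_of coa twf mbi kch kgn clk smk IFK.ifk ctk dck rsk lwk

end Pool.L5
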