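import Pool.Agent.H24.L5.Stmts

/-!
# L5, row KGN: one functional and a random projection
-/

set_option autoImplicit false

namespace Pool.L5

open Finset Real
open Pool.Agent.H49.Ent Pool.Agent.H32.Dense Pool.STK Pool.KA Pool.GP Pool.KRN

variable {m j j' k J K N G : ℕ}

/-- The deficit given a function of the line is smaller. -/
lemma CH_T_ge (F : Pool.KA.Fam m J) {S : Type} (W : F.Ω → S)
    (hW : ∀ ω ω', F.l ω = F.l ω' → W ω = W ω') : CH F.p F.T F.l ≤ CH F.p F.T W :=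
  CH_mono_cond F.isLaw.nonneg fun ω ω' _ _ h => hW ω ω' h

/-- Energies of the times of a family are nonnegative. -/
lemma Gf_tz_nonneg (F : Pool.KA.Fam m J) {q : F.Ω → ℝ} (hq : ∀ ω, 0 ≤ q ω) {S : Type}
    (W : F.Ω → S) : 0 ≤ Gf (2 ^ J) q W (tz F) := by
  unfold Gf
  refine Ex_nonneg (fun w => glue_nonneg hq hq w) fun w _ => ?_
  unfold ell
  refine Real.log_nonneg ?_
  rw [one_le_div (by positivity)]
  have t3 : ((F.T w.1 : ℕ) : ℝ) < 2 ^ J := by exact_mod_cast F.tim w.1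
  have t4 : ((F.T w.2 : ℕ) : ℝ) < 2 ^ J := by exact_mod_cast F.tim w.2
  have t5 : (0 : ℝ) ≤ ((F.T w.1 : ℕ) : ℝ) := Nat.cast_nonneg _
  have t6 : (0 : ℝ) ≤ ((F.T w.2 : ℕ) : ℝ) := Nat.cast_nonneg _
  unfold tz
  push_cast
  refine max_le ?_ (one_le_pow₀ (by norm_num))
  rw [abs_le]
  constructor <;> linarith

theorem kgn : KGNStmt := by
  intro hTWF m k N β hm hβ
  obtain ⟨C₀, hC₀, htwf⟩ := hTWF
  refine ⟨C₀ + |Cg m k N 0 0 0|, ?_⟩
  intro J G g F κ A a hl b n₀ e hg ha hb hBd hmin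
  have hn := hl.nonneg
  obtain ⟨q, hq⟩ : ∃ q, q = cond F.p A a := ⟨_, rfl⟩
  have hprj := prj_ge (k := k) F.isLaw hg A a ha (Lb F b) F.dir hmin
  obtain ⟨F', hF'⟩ : ∃ F', F' = F.res A a hl := ⟨_, rfl⟩
  have hlin : ∀ ω ω', (F.res A a hl).l ω = (F.res A a hl).l ω' → ∀ {i : ℕ} (M : Fin i → Fin m → ℝ),
      Lb (F.res A a hl) M ω = Lb (F.res A a hl) M ω' := fun ω ω' h i M =>
    Lb_of_l (F.res A a hl) M ω ω' h
  -- the matrices
  have h2 : ∀ r : Mat J k m, CH (cond F.p A a) (fun ω => fl J (mv (mq r) (F.d ω))) (Lb F b) +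
      J * Real.log 2 - CH (cond F.p A a) (fun ω => (fl J (mv (mq r) (F.x ω)), F.T ω)) (Lb F b) ≤
      β * Kl (F.res A a hl) + e := by
    intro r
    have h := hBd r
    unfold Bd at h
    have h3 := CH_T_ge (F.res A a hl) (fun ω => (Lb (F.res A a hl) (mq r) ω, Lb (F.res A a hl) b ω))
      (fun ω ω' h => Prod.ext (hlin ω ω' h _) (hlin ω ω' h _))
    have h4 : β * (J * Real.log 2 - CH (F.res A a hl).p (F.res A a hl).T
        (fun ω => (Lb (F.res A a hl) (mq r) ω, Lb (F.res A a hl) b ω))) ≤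
        β * Kl (F.res A a hl) := by
      refine mul_le_mul_of_nonneg_left ?_ (by linarith)
      unfold Kl
      linarith
    exact h.trans (by linarith)
  -- two copies
  have h1 := htwf m J (F.res A a hl) b hb
  have e1 : H (F.res A a hl).p (Lb (F.res A a hl) b) = H (cond F.p A a) (Lb F b) := rfl
  have e2 : CH (F.res A a hl).p (F.res A a hl).T (Lb (F.res A a hl) b) =
      CH (cond F.p A a) F.T (Lb F b) := rfl
  have e3 : H (F.res A a hl).p (fun ω => (fl J (mv b ((F.res A a hl).x ω)), (F.res A a hl).T ω)) =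
      H (cond F.p A a) (fun ω => (fl J (mv b (F.x ω)), F.T ω)) := rfl
  have e4 : Gf (2 ^ J) (F.res A a hl).p (Lb (F.res A a hl) b) (tz (F.res A a hl)) =
      Gf (2 ^ J) (cond F.p A a) (Lb F b) (tz F) := rfl
  rw [e1, e2, e3, e4] at h1
  have e5 : Sl (F.res A a hl) = H (cond F.p A a) (fun ω => (F.X J ω, F.T ω)) := rfl
  rw [e5]
  obtain ⟨Kq, hKq⟩ : ∃ Kq : ℝ, Kq = Kl (F.res A a hl) := ⟨_, rfl⟩
  rw [← hKq] at h2 ⊢
  obtain ⟨xb, hxb⟩ : ∃ xb : F.Ω → Fin 1 → ℤ, xb = fun ω => fl J (mv b (F.x ω)) := ⟨_, rfl⟩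
  have e6 : (fun ω => (fl J (mv b (F.x ω)), F.T ω)) = fun ω => (xb ω, F.T ω) := by rw [hxb]
  rw [e6] at h1
  have hGn : 0 ≤ Gf (2 ^ J) (cond F.p A a) (Lb F b) (tz F) :=
    Gf_tz_nonneg F (cond_nonneg F.isLaw.nonneg A a) (Lb F b)
  obtain ⟨Gq, hGq⟩ : ∃ Gq : ℝ, Gq = Gf (2 ^ J) (cond F.p A a) (Lb F b) (tz F) + 1 := ⟨_, rfl⟩
  have hG1 : 1 ≤ Gq := by linarith
  have hG0 : 0 ≤ Gq := by linarith
  rw [← hGq] at h1 ⊢
  rw [← hq] at h1 h2 hprj hl hn ⊢
  -- the average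
  have hcard : (0 : ℝ) < (Fintype.card (Mat J k m) : ℝ) := by exact_mod_cast Fintype.card_pos
  have h3 : (∑ r : Mat J k m, CH q (fun ω => prj (2 ^ (J + 1)) r (fl J (F.d ω))) (Lb F b)) /
      (Fintype.card (Mat J k m) : ℝ) ≤
      CH q (F.X J) (fun ω => (F.T ω, Lb F b ω)) + CH q F.T (Lb F b) - J * Real.log 2 +
        (β * Kq + e) + k * Real.log 7 + k * Real.log 3 := by
    rw [div_le_iff₀ hcard]
    have h4 : ∀ r : Mat J k m, CH q (fun ω => prj (2 ^ (J + 1)) r (fl J (F.d ω))) (Lb F b) ≤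
        CH q (F.X J) (fun ω => (F.T ω, Lb F b ω)) + CH q F.T (Lb F b) - J * Real.log 2 +
        (β * Kq + e) + k * Real.log 7 + k * Real.log 3 := by
      intro r
      have k1 := CH_le_add hn (fun ω => prj (2 ^ (J + 1)) r (fl J (F.d ω)))
        (fun ω => fl J (mv (mq r) (F.d ω))) (Lb F b)
      have k2 := CH_prj hl hm r F.d (fun ω => (fl J (mv (mq r) (F.d ω)), Lb F b ω))
        (fun ω ω' h => (Prod.ext_iff.mp h).1)
      have k3 := h2 r
      have k4 := CH_le_add hn (fun ω => fl J (mv (mq r) (F.x ω))) (F.X J)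
        (fun ω => (F.T ω, Lb F b ω))
      have k5 := CH_img (J := J) hl (mq_le r) F.x (fun ω => (F.X J ω, (F.T ω, Lb F b ω)))
        (fun ω ω' h => (Prod.ext_iff.mp h).1)
      have k6 := CH_chain hn (fun ω => fl J (mv (mq r) (F.x ω))) F.T (Lb F b)
      linarith
    have h5 := Finset.sum_le_sum (s := univ) fun r _ => h4 r
    rw [Finset.sum_const, Finset.card_univ, nsmul_eq_mul] at h5
    linarith
  -- the position
  have s1 : CH q xb F.T + CH q (F.X J) (fun ω => (xb ω, F.T ω)) ≤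
      CH q (F.X J) F.T + Real.log 3 := by
    have k1 := CH_chain hn (F.X J) xb F.T
    have k2 := CH_chain hn xb (F.X J) F.T
    have k3 : CH q (fun ω => (F.X J ω, xb ω)) F.T = CH q (fun ω => (xb ω, F.X J ω)) F.T :=
      CH_congr hn (fun ω ω' _ _ h => by
          have e := Prod.ext_iff.mp (Prod.ext_iff.mp h).1
          exact Prod.ext e.2 e.1)
        (fun ω ω' _ _ h => by
          have e := Prod.ext_iff.mp (Prod.ext_iff.mp h).1
          exact Prod.ext e.2 e.1) (fun _ _ _ _ h => h) (fun _ _ _ _ h => h)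
    have k4 := CH_img (J := J) hl hb F.x (fun ω => (F.X J ω, F.T ω))
      (fun ω ω' h => (Prod.ext_iff.mp h).1)
    rw [← hxb] at k4
    push_cast at k4
    linarith
  have s3 : CH q (F.X J) (fun ω => (F.T ω, Lb F b ω)) ≤
      CH q (F.X J) (fun ω => (xb ω, F.T ω)) + Real.log 5 := by
    have k1 := CH_le_add hn (F.X J) xb (fun ω => (F.T ω, Lb F b ω))
    have k2 := CH_near (m := 1) hl xb (fun ω => (F.T ω, Lb F b ω)) 2 (by
      intro ω ω' h l
      rw [hxb]
      simp only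
      rw [fl_apply, fl_apply]
      refine floor_near ?_
      have h3 : fl J (mv b (F.u ω)) = fl J (mv b (F.u ω')) :=
        (Prod.ext_iff.mp (Prod.ext_iff.mp h).2).1
      have h4 : fl J (mv b (F.d ω)) = fl J (mv b (F.d ω')) :=
        (Prod.ext_iff.mp (Prod.ext_iff.mp h).2).2
      have e : ∀ ω, mv b (F.x ω) l = mv b (F.u ω) l + F.t ω * mv b (F.d ω) l := by
        intro ω
        rw [← mv_add_smul]
        rfl
      have h5' : F.T ω = F.T ω' := (Prod.ext_iff.mp h).1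
      have h5 : F.t ω = F.t ω' := by
        unfold Pool.KA.Fam.t
        rw [h5']
      have h6 : 0 ≤ F.t ω := by
        unfold Pool.KA.Fam.t
        positivity
      have h7 : F.t ω ≤ 1 := by
        unfold Pool.KA.Fam.t
        rw [div_le_one (by positivity)]
        exact_mod_cast (F.tim ω).le
      have h8 := abs_of_fl h3 l
      have h9 := abs_of_fl h4 l
      rw [e ω, e ω', ← h5]
      have h10 : 2 ^ J * (mv b (F.u ω) l + F.t ω * mv b (F.d ω) l) -
          2 ^ J * (mv b (F.u ω') l + F.t ω * mv b (F.d ω') l) =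
          (2 ^ J * mv b (F.u ω) l - 2 ^ J * mv b (F.u ω') l) +
          F.t ω * (2 ^ J * mv b (F.d ω) l - 2 ^ J * mv b (F.d ω') l) := by ring
      rw [h10]
      have h11 : |F.t ω * (2 ^ J * mv b (F.d ω) l - 2 ^ J * mv b (F.d ω') l)| ≤ 1 := by
        rw [abs_mul, abs_of_nonneg h6]
        exact mul_le_one₀ h7 (abs_nonneg _) h9.le
      have h12 := abs_add_le (2 ^ J * mv b (F.u ω) l - 2 ^ J * mv b (F.u ω') l)
        (F.t ω * (2 ^ J * mv b (F.d ω) l - 2 ^ J * mv b (F.d ω') l))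
      push_cast
      linarith)
    have k3 := CH_mono_cond hn (X := F.X J) (W' := fun ω => (xb ω, (F.T ω, Lb F b ω)))
      (W := fun ω => (xb ω, F.T ω)) (fun ω ω' _ _ h => by
        have e := Prod.ext_iff.mp h
        exact Prod.ext e.1 (Prod.ext_iff.mp e.2).1)
    have k4 : ((1 : ℕ) : ℝ) * Real.log (2 * ((2 : ℕ) : ℝ) + 1) = Real.log 5 := by norm_num
    rw [k4] at k2
    linarith
  -- the pairs with the time
  have p1 : H q (fun ω => (xb ω, F.T ω)) = H q F.T + CH q xb F.T := by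
    unfold CH
    ring
  have p2 : H q (fun ω => (F.X J ω, F.T ω)) = H q F.T + CH q (F.X J) F.T := by
    unfold CH
    ring
  have s4 : CH q (fun ω => fl (g n₀) (F.d ω)) (Lb F b) = CH q (F.D (g n₀)) (Lb F b) := rfl
  rw [s4] at hprj
  have hlog2 : 0 ≤ Real.log 2 := Real.log_nonneg (by norm_num)
  have hCg : Real.log 3 + Real.log 5 + k * Real.log 7 + k * Real.log 3 +
      (m * Real.log 7 + Real.log (cs k m G) + Real.log ((N : ℝ) + 1)) ≤
      |Cg m k N 0 0 0| + k * G * Real.log 2 := by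
    obtain ⟨R, hR⟩ : ∃ R : ℝ, R = |Cg m k N 0 0 0| := ⟨_, rfl⟩
    have h : Cg m k N 0 0 0 ≤ R := hR ▸ le_abs_self _
    rw [← hR]
    have e0 : Real.log (cs k m G) = Real.log (cs k m 0) + k * G * Real.log 2 := by
      unfold cs
      rw [mul_zero, pow_zero, mul_one, Real.log_mul (by positivity) (by positivity),
        Real.log_pow 2]
      push_cast
      ring
    have e1 : 0 ≤ m * Real.log (2 * ((0 + 1 : ℕ) : ℝ) + 1) := by
      refine mul_nonneg (Nat.cast_nonneg _) (Real.log_nonneg ?_)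
      norm_num
    unfold Cg at h
    rw [e0]
    have e2 : ((0 : ℕ) : ℝ) = 0 := Nat.cast_zero
    rw [e2] at h
    linarith
  have hCg0 : 0 ≤ |Cg m k N 0 0 0| := abs_nonneg _
  have hB : C₀ * Gq / 2 + |Cg m k N 0 0 0| ≤ (C₀ + |Cg m k N 0 0 0|) * Gq := by
    have h1 : |Cg m k N 0 0 0| * 1 ≤ |Cg m k N 0 0 0| * Gq := mul_le_mul_of_nonneg_left hG1 hCg0
    have h2 : 0 ≤ C₀ * Gq := mul_nonneg hC₀ hG0
    have h3 : (C₀ + |Cg m k N 0 0 0|) * Gq = C₀ * Gq + |Cg m k N 0 0 0| * Gq := by ring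
    rw [h3]
    linarith
  rw [p1] at h1
  rw [p2]
  linarith

end Pool.L5
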