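import Pool.Agent.H9.KRN.Main
import Pool.Agent.H60.LQ.Defs
import Pool.Agent.H73.KFIN.Max

/-!
# L5: the Kakeya maximal function estimate in dimension five, exponent `11/3` (statements)

THEOREM. `N` tubes of width `δ` in `ℝ ^ 5` with `δ`-separated directions, `|X ∩ T| ≥ lam |T|`:
`|X| ≥ c lam ^ (11/3) δ ^ (4/3 + ε) N δ ^ 4`.

Entropy form (`m = 4`, unit `lm = J log 2`, `K = lm - H(T | line)`):
`3 H(D) ≤ 3 (H(X, T) - lm) + 4 lm + 11 K + C (G + 1) + ε J`, `G` the mean logarithmic energy of the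
time given the line. Proof: `MB 2 3` (dimension three in full) for linear images; two copies of the
time given the rounded image `l_b` of the line under one functional `b`; a random projection to
dimension two; two functionals with the same minimiser of the informations.
-/

set_option autoImplicit false

namespace Pool.L5

open Finset Real MeasureTheory
open Pool.Agent.H49.Ent Pool.Agent.H32.Dense Pool.STK Pool.KA Pool.GP Pool.KRN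
open Pool.Agent.H53.Kak (E tube)

variable {m j j' k J K N G : ℕ}

/-- (COA) Energies given a coarser variable. `ell M x y ≤ C + log 2 · #{i ≤ J : ⌊x / 2 ^ i⌋ and
⌊y / 2 ^ i⌋ differ by at most 1}` and `#{i ≤ J : ⌊x / 2 ^ i⌋ = ⌊y / 2 ^ i⌋} log 2 ≤ ell M x y + C`.
For a law `μ` on the integers, `∑ |a - b| ≤ 1, μ a μ b ≤ 3 ∑ a, μ a ^ 2`, and `μ ↦ ∑ a, μ a ^ 2` is
convex: if `W` is a function of `W'` then `∑ a, P(a | W) ^ 2 ≤ ∑ W', P(W' | W) ∑ a, P(a | W') ^ 2`.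
(`Gf` is `Ex (dbl p W) ell`, `dbl p W (ω, ω') = p ω p ω' / law p W (W ω)` if `W ω = W ω'`.) -/
def COAStmt : Prop :=
  ∃ C : ℝ, 0 ≤ C ∧ ∀ (J : ℕ) (Ω : Type) [Fintype Ω] (β γ : Type) (p : Ω → ℝ) (W' : Ω → β)
    (W : Ω → γ) (τ : Ω → ℤ), (∀ ω, 0 ≤ p ω) → ∑ ω, p ω = 1 →
    (∀ ω, 0 < p ω → 0 ≤ τ ω ∧ τ ω < 2 ^ J) → Det p W' W →
    Gf (2 ^ J) p W τ ≤ C * (Gf (2 ^ J) p W' τ + 1)

/-- The time as an integer. -/
def tz (F : Pool.KA.Fam m J) (ω : F.Ω) : ℤ := (F.T ω : ℤ)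

/-- The deficit of the time given the line. -/
noncomputable def Kl (F : Pool.KA.Fam m J) : ℝ := J * Real.log 2 - CH F.p F.T F.l

/-- The mean logarithmic energy of the time given the line. -/
noncomputable def Gl (F : Pool.KA.Fam m J) : ℝ := Gf (2 ^ J) F.p F.l (tz F)

/-- The entropy of the point (time and rounded position). -/
noncomputable def Sl (F : Pool.KA.Fam m J) : ℝ := H F.p (fun ω => (F.X J ω, F.T ω))

/-- (TWF) Two copies of the time given the rounded image `Lb F b` of the line under one functional.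
In `dbl F.p (Lb F b)` the two points `(xb, T)`, `(xb', T')`, `xb = fl J (mv b (F.x ω))`:
`2 H(xb, T) ≥ H(xb, T, xb', T') ≥ H(Lb, T, T') - H(Lb | xb, T, xb', T')`,
`H(Lb, T, T') = H(Lb) + 2 H(T | Lb)` (`CH_glue`-lemmas), and with `s = |T - T'|`, `M = 2 ^ J`:
`2 ^ J mv b d = (M / (T - T')) (xb - xb') + O(M / max s 1)`, `2 ^ J mv b u = xb - (T / M) ..`: both
components of `Lb` have mean log-uncertainty at most `ell M T T' + C` (`CH_le_tail` or `CH_le_vec`).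
Model: `level0G` (H32/Dense/Zero.lean), the row L02 of H60/LQ/Six.lean. -/
def TWFStmt : Prop :=
  ∃ C : ℝ, 0 ≤ C ∧ ∀ (m J : ℕ) (F : Pool.KA.Fam m J) (b : Fin 1 → Fin m → ℝ),
    (∀ l, ∑ s, |b l s| ≤ 1) →
    H F.p (Lb F b) + 2 * CH F.p F.T (Lb F b) ≤
      2 * H F.p (fun ω => (fl J (mv b (F.x ω)), F.T ω)) +
      C * (Gf (2 ^ J) F.p (Lb F b) (tz F) + 1)

/-- The maximal inequality for the image of `F` under `M`, given `z`, with the constant `β` and the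
error `e`. The line of the image is the rounded one. -/
def Bd (F : Pool.KA.Fam m J) (M : Fin j → Fin m → ℝ) {S : Type} (z : F.Ω → S) (β e : ℝ) : Prop :=
  CH F.p (fun ω => fl J (mv M (F.d ω))) z + J * Real.log 2 -
      CH F.p (fun ω => (fl J (mv M (F.x ω)), F.T ω)) z ≤
    β * (J * Real.log 2 - CH F.p F.T (fun ω => (Lb F M ω, z ω))) + e

/-- (MBI) Apply `MB j β` to the family with `u := fl J (mv M u) / 2 ^ J`, `d := fl J (mv M d) / 2 ^ J`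
and side information `z` (its exact line is a function of `Lb F M` and conversely, its `D J` is
`fl J (mv M d)`, its `X J` differs from `fl J (mv M x)` by `O(1)` per coordinate). -/
def MBIStmt : Prop :=
  ∀ (j : ℕ) (β : ℝ), 0 ≤ β → Pool.KFIN.MB j β → ∀ ε : ℝ, 0 < ε → ∃ J₀ : ℕ, ∀ J ≥ J₀, ∀ (m : ℕ)
    (F : Pool.KA.Fam m J) (M : Fin j → Fin m → ℝ), (∀ l, ∑ s, |M l s| ≤ 1) →
    ∀ (S : Type) (z : F.Ω → S), Bd F M z β (ε * J)

/-- (KCH) The chain, inequality (A). As `Pool.KRN.chain` (H9/KRN/Lin.lean), with the time: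
`H(X, T) ≥ H(xb, T) + CH((xc, T) | Lb) - CH(T | Lb) - C` (`CH(xc | xb, T) ≥ CH(xc | T, Lb) - C`), the two
inequalities `Bd`, `K₂ := lm - CH(T | Lb) ≤ Kl F` and `CH(T | Lb c, Lb b) ≥ CH(T | F.l)`;
`H(db) ≥ H(D) - j' lm - C`, `CH(dc | Lb) ≥ H(D) - H(Lb) - C`. -/
def KCHStmt : Prop :=
  ∀ (m j j' C : ℕ) (β : ℝ), 1 ≤ β → ∃ B : ℝ, ∀ (J : ℕ) (F : Pool.KA.Fam m J)
    (b : Fin j → Fin m → ℝ) (c : Fin j' → Fin m → ℝ), (∀ l, ∑ s, |b l s| ≤ 1) →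
    (∀ l, ∑ s, |c l s| ≤ 1) →
    (∀ (x : Fin m → ℝ) (δ : ℝ), (∀ l, |mv b x l| ≤ δ) → (∀ l, |mv c x l| ≤ δ) →
      ∀ r, |x r| ≤ C * δ) → ∀ e : ℝ, Bd F b (fun _ => ()) β e → Bd F c (Lb F b) β e →
    2 * H F.p (F.D J) - j' * (J * Real.log 2) - H F.p (Lb F b) + J * Real.log 2 ≤
      Sl F + (2 * β - 1) * Kl F + 2 * e + B

/-- (KGN) One functional and a random projection, inequality (B), in the class `a`. As
`Pool.KRN.gen` (H9/KRN/Gen.lean); all quantities for the family `F.res A a hl` (law `cond F.p A a`):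
`H(X, T) ≥ H(xb, T) + CH(X | xb, T) - C`, `CH(X | xb, T) ≥ CH(X | T, Lb) - C ≥ CH(x_r, T | Lb) -
CH(T | Lb) - C` for every matrix `r`, `Bd` for `mq r` given `Lb`, `prj_ge` (H9/KRN/Prj.lean), and
(TWF) for `H(xb, T)`: the term `CH(T | Lb)` cancels. -/
def KGNStmt : Prop :=
  TWFStmt → ∀ (m k N : ℕ) (β : ℝ), 0 < m → 1 ≤ β → ∃ B : ℝ, ∀ (J G : ℕ) (g : ℕ → ℕ)
    (F : Pool.KA.Fam m J) (κ : Type) (A : F.Ω → κ) (a : κ) (hl : IsLaw (cond F.p A a))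
    (b : Fin 1 → Fin m → ℝ) (n₀ : ℕ) (e : ℝ), Grid J N G g → 0 < law F.p A a →
    (∀ l, ∑ s, |b l s| ≤ 1) →
    (∀ r : Mat J k m, Bd (F.res A a hl) (mq r) (Lb (F.res A a hl) b) β e) →
    (∀ ω, A ω = a → 0 < F.p ω → ∀ n ≤ N,
      fi F.p (Lb F b) F.d J k g n₀ ω ≤ fi F.p (Lb F b) F.d J k g n ω) →
    H (cond F.p A a) (Lb F b) / 2 + CH (cond F.p A a) (F.D (g n₀)) (Lb F b) +
        ((k * (J - g n₀) : ℕ) : ℝ) * Real.log 2 + Real.log (law F.p A a) + J * Real.log 2 ≤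
      Sl (F.res A a hl) + β * Kl (F.res A a hl) + e +
        B * (Gf (2 ^ J) (cond F.p A a) (Lb F b) (tz F) + 1) + k * G * Real.log 2

/-- (CLK) The inequality in one class, `m = 4`: `2 (B) + (A)` with `sub_two`, `H_trc`, `H_L1`
(H9/KRN/Cls.lean), `exists_compl` (H9/KRN/Vdm.lean), and (COA) for the energies.
`3 H(D) ≤ 3 (Sl - lm) + 4 lm + 11 Kl + ..`, all for the law `cond F.p A a`. -/
def CLKStmt : Prop :=
  COAStmt → TWFStmt → KCHStmt → KGNStmt → ∀ (K C N : ℕ), 4 ≤ K → ∃ B : ℝ, 0 ≤ B ∧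
    ∀ (J G : ℕ) (g : ℕ → ℕ) (F : Pool.KA.Fam 4 J) (κ : Type) (A : F.Ω → κ) (a : κ)
    (hl : IsLaw (cond F.p A a)) (b : Fin K → Fin 4 → ℝ) (τ : Fin 2 → Fin K) (n₀ : ℕ) (e : ℝ),
    GPos b C → Grid J N G g → (∀ ω i, |F.u ω i| ≤ 1) → 0 < law F.p A a →
    Function.Injective τ → 0 ≤ e →
    (∀ (M : Fin 2 → Fin 4 → ℝ), (∀ l, ∑ s, |M l s| ≤ 1) → ∀ (S : Type)
      (z : (F.res A a hl).Ω → S), Bd (F.res A a hl) M z 3 e) →
    (∀ l, ∀ ω, A ω = a → 0 < F.p ω → ∀ n ≤ N,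
      fi F.p (Lb F (r1 b (τ l))) F.d J 2 g n₀ ω ≤ fi F.p (Lb F (r1 b (τ l))) F.d J 2 g n ω) →
    3 * H (cond F.p A a) (F.D J) ≤
      3 * (Sl (F.res A a hl) - J * Real.log 2) + 4 * (J * Real.log 2) + 11 * Kl (F.res A a hl) -
        2 * Real.log (law F.p A a) + 10 * e + B * (Gl (F.res A a hl) + 1) + 10 * G

/-- (SMK) The sum over the classes (`exists_cls` for two functionals: the class must be a function of
the values `fi`, hence of the line; `K > N + 1` functionals). `law · H_class(D)` sum to at least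
`H(D) - log #`, `law · Sl_class` to at most `Sl`, `law · Kl_class` to at most `Kl + log #`,
`law · Gl_class` to `Gl` (the class is a function of the line), `- law log law` to at most `log #`.
No lower bound for the probability of a class is needed: all terms are linear. `N` with
`10 / N ≤ ε / 4`, `G = J / N + 1`. For `J < J₀` use `B₀`. -/
def AK5 : Prop :=
  ∀ ε : ℝ, 0 < ε → ∃ B₀ B₁ : ℝ, 0 ≤ B₁ ∧ ∀ (J : ℕ) (F : Pool.KA.Fam 4 J),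
    (∀ ω i, |F.u ω i| ≤ 1) →
    3 * H F.p (F.D J) ≤ 3 * (Sl F - J * Real.log 2) + 4 * (J * Real.log 2) + 11 * Kl F +
      B₀ + B₁ * Gl F + ε * J

def SMKStmt : Prop :=
  MBIStmt → COAStmt → TWFStmt → KCHStmt → KGNStmt → CLKStmt → Pool.KFIN.MB 2 3 → AK5

/-- (IFK) Side information and unbounded positions. For the values `z` of `(Z, c)`,
`c k := ⌊u k / 2 ^ J⌋`: the family with law `cond p (Z, c) z`, `u / 2 ^ J - c`, `v / 2 ^ J`,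
`T = τ.toNat` (`Z, c` are functions of the line and of `Z`). `CH((τ, X) | Z) ≥ CH(c | Z) +
CH((τ, X) | c, Z) - C` (`c` is known from `X` up to 5 values per coordinate), `CH(v | Z) ≤ CH(c | Z) +
CH(v | c, Z)`. Average over `z` (`tya_CH_sum`, H34/KA/TYA.lean). -/
def IFKStmt : Prop :=
  AK5 → ∀ ε : ℝ, 0 < ε → ∃ B₀ B₁ : ℝ, 0 ≤ B₁ ∧ Pool.LQ.Ag 4 1 (11 / 3) B₀ B₁ (4 / 3 + ε)

/-- The counting form for times with bounded logarithmic potentials, with a loss larger than `g`. -/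
def CtP (d : ℕ) (g P : ℝ) : Prop :=
  ∀ ε : ℝ, g < ε → ∀ G₀ : ℝ, ∃ c : ℝ, 0 < c ∧ ∀ (J N : ℕ) (u : Fin N → Fin d → ℝ)
    (v : Fin N → Fin d → ℤ) (A : Fin N → Finset ℤ) (κ : ℝ), 0 < κ → Function.Injective v →
    (∀ i k, |v i k| ≤ 2 ^ J) → (∀ i, A i ⊆ Finset.Ico 0 (2 ^ J : ℤ)) →
    (∀ i, κ * 2 ^ J ≤ (A i).card) →
    (∀ i, ∀ x ∈ A i, ∑ y ∈ A i, ell (2 ^ J) x y ≤ G₀ * (A i).card) →
    c * ((2 : ℝ) ^ J) ^ (-ε) * (2 ^ J * κ ^ P * (N : ℝ)) ≤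
      ∑ j ∈ Finset.Ico 0 (2 ^ J : ℤ), Pool.LQ.cl J u v A j

/-- The counting form for all sets of times. -/
def Ct (d : ℕ) (g P : ℝ) : Prop :=
  ∀ ε : ℝ, g < ε → ∃ c : ℝ, 0 < c ∧ ∀ (J N : ℕ) (u : Fin N → Fin d → ℝ)
    (v : Fin N → Fin d → ℤ) (A : Fin N → Finset ℤ) (κ : ℝ), 0 < κ → Function.Injective v →
    (∀ i k, |v i k| ≤ 2 ^ J) → (∀ i, A i ⊆ Finset.Ico 0 (2 ^ J : ℤ)) →
    (∀ i, κ * 2 ^ J ≤ (A i).card) →
    c * ((2 : ℝ) ^ J) ^ (-ε) * (2 ^ J * κ ^ P * (N : ℝ)) ≤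
      ∑ j ∈ Finset.Ico 0 (2 ^ J : ℤ), Pool.LQ.cl J u v A j

/-- The form for tubes. -/
def Rs (d : ℕ) (g P : ℝ) : Prop :=
  ∀ ε : ℝ, g < ε → ∃ c : ℝ, 0 < c ∧ ∀ δ : ℝ, 0 < δ → δ < 1 → ∀ (ι : Type) (S : Finset ι)
    (x₀ e : ι → E d), Pool.Agent.H53.Kak.Fam δ e S → ∀ (X : Set (E d)), MeasurableSet X →
    ∀ lam : ℝ, 0 < lam → lam ≤ 1 →
    (∀ i ∈ S, ENNReal.ofReal (lam * δ ^ d) ≤ volume (X ∩ tube δ (x₀ i) (e i))) →
    ENNReal.ofReal (c * δ ^ ε * (lam ^ P * δ ^ d * (S.card : ℝ))) ≤ volume X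

/-- (CTK) From the entropy inequality to the counting form. Family: `Sp A`, `wt A` of
H36/Dense/X6.lean as in the proof of HCB (row HCB of H60/LQ/Stmts.lean) but WITHOUT heavy caps:
`CH v () = log N`, `Kf ≤ - log κ`, `Gf ≤ G₀`, `Sb ≤ log ∑ j, cl j`; exponentiate. -/
def CTKStmt : Prop :=
  ∀ (d : ℕ) (g P : ℝ), 0 ≤ P →
    (∀ ε : ℝ, 0 < ε → ∃ B₀ B₁ : ℝ, 0 ≤ B₁ ∧ Pool.LQ.Ag d 1 P B₀ B₁ (g + ε)) → CtP d g P

/-- (DCK) Two-ends reduction: port of H42/LQ/DCS.lean (`SI`, `SI.finset`, `one_interval`, `DCS`) with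
`a = 1` and losses `ε > g`. In `one_interval` keep the gain `w ^ (-ε₁)` of `(2 ^ l) ^ (-ε₁)`:
`2 ^ l (κ w ^ e₀ / w) ^ P |S| w ^ d (2 ^ l) ^ (-ε₁) = 2 ^ m (κ w ^ e₀) ^ P |S| (2 ^ m) ^ (-ε₁)
w ^ (1 + d - P - ε₁)` and `1 + d - P - ε₁ ≤ 1 + d - P - g ≤ 0`. -/
def DCKStmt : Prop :=
  ∀ (d : ℕ) (g P : ℝ), 0 ≤ g → 1 ≤ P → 1 + (d : ℝ) - g ≤ P → CtP d g P → Ct d g P

/-- (RSK) Tubes: port of `restrictedP_of_count` (H53/Dense/Restr.lean) with `a = 1`; `restr_main` and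
`class_bound` are for one value of the loss and can be used as they are. For `lam ≤ δ`:
`δ ^ ε lam ^ P δ ^ d N ≤ C lam δ ^ (g + P - 1) ≤ C lam δ ^ d`. -/
def RSKStmt : Prop :=
  ∀ (d : ℕ) (g P : ℝ), 0 ≤ g → 1 ≤ P → 1 + (d : ℝ) - g ≤ P → Ct d g P → Rs d g P

/-- (LWK) The maximal function form, `p = P`, `g = n - p`, `n = d + 1`. Level sets
`V = |{∑ 1_T ≥ μ}|`: the tubes have mean density `x = μ V / (C δ ^ d N)`; a dyadic class of densities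
(`C log (1 / δ)` classes; model: `lower_of_restricted`, H53/Dense/Loss.lean) and (Rs) give
`V ≥ c δ ^ (g + ε) x ^ p δ ^ d N`, i.e. `V ≤ C δ ^ (- (g + ε) / (p - 1)) μ ^ (- p / (p - 1)) δ ^ d N`.
Sum over the dyadic levels `1 ≤ μ ≤ N`, `N ≤ C δ ^ (-d)` (`card_le_all`), for `q ≥ p / (p - 1)`. -/
def LWKStmt : Prop :=
  ∀ (d : ℕ) (p : ℝ), 1 ≤ d → 1 < p → p ≤ 1 + (d : ℝ) → Rs d (1 + (d : ℝ) - p) p →
    ∀ q : ℝ, p / (p - 1) ≤ q → ∀ ε : ℝ, 0 < ε → ∃ C : ℝ, ∀ δ : ℝ, 0 < δ → δ < 1 →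
      ∀ (ι : Type) (S : Finset ι) (c e : ι → E d), Pool.Agent.H53.Kak.Fam δ e S →
        eLpNorm (fun x => (Pool.Agent.H53.Kak.mu δ c e S x : ℝ)) (ENNReal.ofReal q) volume ≤
          ENNReal.ofReal (C * δ ^ (((d : ℝ) + 1) / q - d - ε) * (δ ^ d * (S.card : ℝ)) ^ (1 / q))

/-- (FIN5) The theorem in dimension five. -/
def FIN5Stmt : Prop :=
  ∀ q : ℝ, 11 / 8 ≤ q → ∀ ε : ℝ, 0 < ε → ∃ C : ℝ, ∀ δ : ℝ, 0 < δ → δ < 1 →
    ∀ (ι : Type) (S : Finset ι) (c e : ι → E 4), Pool.Agent.H53.Kak.Fam δ e S →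
      eLpNorm (fun x => (Pool.Agent.H53.Kak.mu δ c e S x : ℝ)) (ENNReal.ofReal q) volume ≤
        ENNReal.ofReal (C * δ ^ (5 / q - 4 - ε) * (δ ^ 4 * (S.card : ℝ)) ^ (1 / q))

end Pool.L5
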