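import Pool.Agent.H24.L5.Stmts

/-!
# L5, row TWF: two copies of the time given the rounded image of the line
-/

set_option autoImplicit false

namespace Pool.L5

open Finset Real
open Pool.Agent.H49.Ent Pool.Agent.H32.Dense Pool.STK Pool.KA Pool.GP Pool.KRN

namespace TwfAux

variable {m J : ℕ}

/-- `2 ^ J` times the value of the functional at the position of the line at the time `T`. -/
noncomputable def val (F : Pool.KA.Fam m J) (b : Fin 1 → Fin m → ℝ) (ω : F.Ω) (T : ℕ) : ℝ :=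
  2 ^ J * mv b (F.u ω) 0 + ((T : ℝ) / 2 ^ J) * (2 ^ J * mv b (F.d ω) 0)

lemma val_eq (F : Pool.KA.Fam m J) (b : Fin 1 → Fin m → ℝ) (ω : F.Ω) :
    2 ^ J * mv b (F.x ω) 0 = val F b ω (F.T ω) := by
  have e : mv b (F.x ω) 0 = mv b (F.u ω) 0 + F.t ω * mv b (F.d ω) 0 := by
    rw [← mv_add_smul]
    rfl
  rw [e]
  unfold val Pool.KA.Fam.t
  ring

lemma tt_nonneg (T : ℕ) : (0 : ℝ) ≤ (T : ℝ) / 2 ^ J := by positivity

lemma tt_le {T : ℕ} (h : T < 2 ^ J) : (T : ℝ) / 2 ^ J ≤ 1 := by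
  rw [div_le_one (by positivity)]
  exact_mod_cast h.le

/-- lines with the same rounded image have close values -/
lemma val_near (F : Pool.KA.Fam m J) (b : Fin 1 → Fin m → ℝ) {ω ω' : F.Ω} {T : ℕ}
    (hT : T < 2 ^ J) (h : Lb F b ω = Lb F b ω') : |val F b ω T - val F b ω' T| ≤ 2 := by
  have h3 : fl J (mv b (F.u ω)) = fl J (mv b (F.u ω')) := (Prod.ext_iff.mp h).1
  have h4 : fl J (mv b (F.d ω)) = fl J (mv b (F.d ω')) := (Prod.ext_iff.mp h).2
  have h8 := abs_of_fl h3 0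
  have h9 := abs_of_fl h4 0
  have h6 := tt_nonneg (J := J) T
  have h7 := tt_le hT
  have e : val F b ω T - val F b ω' T =
      (2 ^ J * mv b (F.u ω) 0 - 2 ^ J * mv b (F.u ω') 0) +
      ((T : ℝ) / 2 ^ J) * (2 ^ J * mv b (F.d ω) 0 - 2 ^ J * mv b (F.d ω') 0) := by
    unfold val
    ring
  rw [e]
  refine (abs_add_le _ _).trans ?_
  have h11 : |((T : ℝ) / 2 ^ J) * (2 ^ J * mv b (F.d ω) 0 - 2 ^ J * mv b (F.d ω') 0)| ≤ 1 := by
    rw [abs_mul, abs_of_nonneg h6]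
    exact mul_le_one₀ h7 (abs_nonneg _) h9.le
  linarith

/-- equal rounded values at the same time -/
lemma val_same (F : Pool.KA.Fam m J) (b : Fin 1 → Fin m → ℝ) {ω ω' : F.Ω}
    (hx : fl J (mv b (F.x ω)) = fl J (mv b (F.x ω'))) :
    |val F b ω (F.T ω) - val F b ω' (F.T ω')| ≤ 1 := by
  rw [← val_eq, ← val_eq]
  exact (abs_of_fl hx 0).le

lemma fl_near {x y : Fin 1 → ℝ} {n : ℝ} (h : |2 ^ J * x 0 - 2 ^ J * y 0| ≤ n) (k : Fin 1) :
    |((fl J x k - fl J y k : ℤ) : ℝ)| ≤ n + 1 := by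
  have hk : k = 0 := Subsingleton.elim _ _
  subst hk
  rw [fl_apply, fl_apply]
  have h1 := Int.floor_le (2 ^ J * x 0)
  have h2 := Int.lt_floor_add_one (2 ^ J * x 0)
  have h3 := Int.floor_le (2 ^ J * y 0)
  have h4 := Int.lt_floor_add_one (2 ^ J * y 0)
  rw [abs_le] at h
  push_cast
  rw [abs_le]
  constructor <;> linarith [h.1, h.2]

lemma ell_ge (F : Pool.KA.Fam m J) (ω ω' : F.Ω) :
    (1 : ℝ) ≤ ((2 ^ J : ℕ) : ℝ) / max |((tz F ω : ℤ) : ℝ) - tz F ω'| 1 := by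
  rw [one_le_div (by positivity)]
  have t3 : ((F.T ω : ℕ) : ℝ) < 2 ^ J := by exact_mod_cast F.tim ω
  have t4 : ((F.T ω' : ℕ) : ℝ) < 2 ^ J := by exact_mod_cast F.tim ω'
  have t5 : (0 : ℝ) ≤ ((F.T ω : ℕ) : ℝ) := Nat.cast_nonneg _
  have t6 : (0 : ℝ) ≤ ((F.T ω' : ℕ) : ℝ) := Nat.cast_nonneg _
  unfold tz
  push_cast
  refine max_le ?_ (one_le_pow₀ (by norm_num))
  rw [abs_le]
  constructor <;> linarith

/-- The slope is known up to `7 M / max |T - T'| 1`. -/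
lemma slope_near (F : Pool.KA.Fam m J) {b : Fin 1 → Fin m → ℝ} (hb : ∀ l, ∑ s, |b l s| ≤ 1)
    {w w' : F.Ω × F.Ω} (hw : Lb F b w.1 = Lb F b w.2) (hw' : Lb F b w'.1 = Lb F b w'.2)
    (h1 : fl J (mv b (F.x w.1)) = fl J (mv b (F.x w'.1)))
    (h2 : fl J (mv b (F.x w.2)) = fl J (mv b (F.x w'.2)))
    (t1 : F.T w.1 = F.T w'.1) (t2 : F.T w.2 = F.T w'.2) (k : Fin 1) :
    |((fl J (mv b (F.d w.1)) k - fl J (mv b (F.d w'.1)) k : ℤ) : ℝ)| ≤
      7 * (((2 ^ J : ℕ) : ℝ) / max |((tz F w.1 : ℤ) : ℝ) - tz F w.2| 1) := by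
  obtain ⟨R, hR⟩ : ∃ R : ℝ, R = ((2 ^ J : ℕ) : ℝ) / max |((tz F w.1 : ℤ) : ℝ) - tz F w.2| 1 :=
    ⟨_, rfl⟩
  have hR1 : 1 ≤ R := hR ▸ ell_ge F w.1 w.2
  obtain ⟨δ, hδ⟩ : ∃ δ : ℝ, δ = 2 ^ J * mv b (F.d w.1) 0 - 2 ^ J * mv b (F.d w'.1) 0 := ⟨_, rfl⟩
  have hJ : (0 : ℝ) < 2 ^ J := by positivity
  -- first bound
  have b1 : |δ| ≤ 2 * 2 ^ J := by
    have a1 := abs_mv_le hb (R := 1) zero_le_one (F.dir w.1) 0
    have a2 := abs_mv_le hb (R := 1) zero_le_one (F.dir w'.1) 0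
    have e : δ = 2 ^ J * (mv b (F.d w.1) 0 - mv b (F.d w'.1) 0) := by rw [hδ]; ring
    rw [e, abs_mul, abs_of_pos hJ]
    have a3 : |mv b (F.d w.1) 0 - mv b (F.d w'.1) 0| ≤ 2 := by
      rw [abs_le] at a1 a2 ⊢
      constructor <;> linarith [a1.1, a1.2, a2.1, a2.2]
    nlinarith
  -- second bound
  have b2 : |((F.T w.1 : ℝ) - F.T w.2) * δ| ≤ 6 * 2 ^ J := by
    have c1 := val_same F b h1
    have c2 := val_same F b h2
    have c3 := val_near F b (T := F.T w.2) (F.tim w.2) hw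
    have c4 := val_near F b (T := F.T w'.2) (F.tim w'.2) hw'
    have e : ((F.T w.1 : ℝ) - F.T w.2) * δ = 2 ^ J *
        ((val F b w.1 (F.T w.1) - val F b w'.1 (F.T w'.1)) -
        (val F b w.2 (F.T w.2) - val F b w'.2 (F.T w'.2)) -
        (val F b w.1 (F.T w.2) - val F b w.2 (F.T w.2)) +
        (val F b w'.1 (F.T w'.2) - val F b w'.2 (F.T w'.2))) := by
      rw [← t1, ← t2, hδ]
      unfold val
      field_simp
      ring
    rw [e, abs_mul, abs_of_pos hJ]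
    have c5 : |(val F b w.1 (F.T w.1) - val F b w'.1 (F.T w'.1)) -
        (val F b w.2 (F.T w.2) - val F b w'.2 (F.T w'.2)) -
        (val F b w.1 (F.T w.2) - val F b w.2 (F.T w.2)) +
        (val F b w'.1 (F.T w'.2) - val F b w'.2 (F.T w'.2))| ≤ 6 := by
      rw [abs_le] at c1 c2 c3 c4 ⊢
      constructor <;> linarith [c1.1, c1.2, c2.1, c2.2, c3.1, c3.2, c4.1, c4.2]
    nlinarith
  have b3 : |δ| ≤ 6 * R := by
    rw [hR]
    have e0 : |((tz F w.1 : ℤ) : ℝ) - tz F w.2| = |(F.T w.1 : ℝ) - F.T w.2| := by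
      unfold tz
      push_cast
      rfl
    rw [e0]
    have hJ' : (((2 ^ J : ℕ) : ℝ)) = 2 ^ J := by push_cast; rfl
    rw [hJ']
    rw [mul_div_assoc', le_div_iff₀ (by positivity)]
    rcases le_total |(F.T w.1 : ℝ) - F.T w.2| 1 with h | h
    · rw [max_eq_right h]
      linarith
    · rw [max_eq_left h, mul_comm, ← abs_mul]
      exact b2
  rw [← hR]
  have h5 := fl_near (J := J) (x := mv b (F.d w.1)) (y := mv b (F.d w'.1)) (n := 6 * R)
    (by rw [← hδ]; exact b3) k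
  linarith

/-- The position is then known up to three units. -/
lemma pos_near (F : Pool.KA.Fam m J) (b : Fin 1 → Fin m → ℝ) {ω ω' : F.Ω}
    (h1 : fl J (mv b (F.x ω)) = fl J (mv b (F.x ω')))
    (h2 : fl J (mv b (F.d ω)) = fl J (mv b (F.d ω')))
    (t1 : F.T ω = F.T ω') (k : Fin 1) :
    |((fl J (mv b (F.u ω)) k - fl J (mv b (F.u ω')) k : ℤ) : ℝ)| ≤ 3 := by
  have c1 := val_same F b h1
  have h9 := abs_of_fl h2 0
  have h6 := tt_nonneg (J := J) (F.T ω)
  have h7 := tt_le (J := J) (F.tim ω)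
  have e : 2 ^ J * mv b (F.u ω) 0 - 2 ^ J * mv b (F.u ω') 0 =
      (val F b ω (F.T ω) - val F b ω' (F.T ω')) -
      ((F.T ω : ℝ) / 2 ^ J) * (2 ^ J * mv b (F.d ω) 0 - 2 ^ J * mv b (F.d ω') 0) := by
    rw [← t1]
    unfold val
    ring
  have h11 : |((F.T ω : ℝ) / 2 ^ J) * (2 ^ J * mv b (F.d ω) 0 - 2 ^ J * mv b (F.d ω') 0)| ≤ 1 := by
    rw [abs_mul, abs_of_nonneg h6]
    exact mul_le_one₀ h7 (abs_nonneg _) h9.le
  have h5 := fl_near (J := J) (x := mv b (F.u ω)) (y := mv b (F.u ω')) (n := 2) (by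
    rw [e]
    rw [abs_le] at c1 h11 ⊢
    constructor <;> linarith [c1.1, c1.2, h11.1, h11.2]) k
  linarith

theorem core (F : Pool.KA.Fam m J) (b : Fin 1 → Fin m → ℝ) (hb : ∀ l, ∑ s, |b l s| ≤ 1) :
    H F.p (Lb F b) + 2 * CH F.p F.T (Lb F b) ≤
      2 * H F.p (fun ω => (fl J (mv b (F.x ω)), F.T ω)) +
      (Gf (2 ^ J) F.p (Lb F b) (tz F) + Real.log 15 + Real.log 7) := by
  have hp := F.isLaw.nonneg
  obtain ⟨W, hW⟩ : ∃ W : F.Ω → (Fin 1 → ℤ) × (Fin 1 → ℤ), W = Lb F b := ⟨_, rfl⟩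
  obtain ⟨P, hP⟩ : ∃ P : F.Ω → (Fin 1 → ℤ) × ℕ, P = fun ω => (fl J (mv b (F.x ω)), F.T ω) :=
    ⟨_, rfl⟩
  rw [← hP, ← hW]
  set q : F.Ω × F.Ω → ℝ := dbl F.p W with hqd
  have hq : ∀ w, 0 ≤ q w := dbl_nonneg hp
  have hq1 : ∑ w, q w = 1 := by rw [(dbl_fst hp).sum]; exact F.isLaw.sum_one
  have m1 : Marg q F.p (fun w => w.1) := dbl_fst hp
  have m2 : Marg q F.p (fun w => w.2) := dbl_snd hp
  have hbb : ∀ w, 0 < q w → W w.1 = W w.2 := fun w hw => dbl_eq hp hw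
  -- lower bound
  have a0 : H q (fun w => W w.1) = H F.p W := m1.H W
  have a2 : CH q (fun w => F.T w.1) (fun w => W w.1) = CH F.p F.T W := m1.CH F.T W
  have a5 : CH q (fun w => F.T w.2) (fun w => (F.T w.1, W w.1)) = CH F.p F.T W := by
    rw [← CH_dbl_2 hp (b := W) F.T F.T]
    refine CH_congr hq ?_ ?_ ?_ ?_
    · intro w w' a c e; exact (Prod.ext_iff.mp e).1
    · intro w w' a c e; exact (Prod.ext_iff.mp e).1
    · intro w w' a c e
      have e1 := Prod.ext_iff.mp e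
      refine Prod.ext ?_ e1.1
      show W w.2 = W w'.2
      rw [← hbb w a, ← hbb w' c]
      exact e1.2
    · intro w w' a c e
      have e1 := Prod.ext_iff.mp e
      refine Prod.ext e1.2 ?_
      show W w.1 = W w'.1
      rw [hbb w a, hbb w' c]
      exact e1.1
  have a6 : H q (fun w => (F.T w.2, (F.T w.1, W w.1))) =
      CH q (fun w => F.T w.2) (fun w => (F.T w.1, W w.1)) +
      (CH q (fun w => F.T w.1) (fun w => W w.1) + H q (fun w => W w.1)) := by
    unfold CH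
    ring
  -- upper bound
  have b1 : H q (fun w => (F.T w.2, (F.T w.1, W w.1))) ≤ H q (fun w => (W w.1, (P w.1, P w.2))) := by
    refine H_mono hq ?_
    intro w w' _ _ e
    have e1 := Prod.ext_iff.mp e
    have e2 := Prod.ext_iff.mp e1.2
    rw [hP] at e2
    have e3 := Prod.ext_iff.mp e2.1
    have e4 := Prod.ext_iff.mp e2.2
    exact Prod.ext e4.2 (Prod.ext e3.2 e1.1)
  have b2 : H q (fun w => (W w.1, (P w.1, P w.2))) =
      CH q (fun w => W w.1) (fun w => (P w.1, P w.2)) + H q (fun w => (P w.1, P w.2)) := by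
    unfold CH
    ring
  have b3 : H q (fun w => (P w.1, P w.2)) ≤ H q (fun w => P w.1) + H q (fun w => P w.2) :=
    subadd hq hq1 (fun _ _ _ _ h => h)
  have b4 : H q (fun w => P w.1) = H F.p P := m1.H P
  have b5 : H q (fun w => P w.2) = H F.p P := m2.H P
  have b6 : CH q (fun w => W w.1) (fun w => (P w.1, P w.2)) ≤
      CH q (fun w => (W w.1).2) (fun w => (P w.1, P w.2)) +
      CH q (fun w => (W w.1).1) (fun w => ((W w.1).2, (P w.1, P w.2))) := by
    rw [← CH_chain hq]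
  have b7 : CH q (fun w => (W w.1).2) (fun w => (P w.1, P w.2)) ≤
      Gf (2 ^ J) F.p W (tz F) + Real.log 15 := by
    have h1 := CH_le_vec (d := 1) hq hq1 (fun w => (W w.1).2) (fun w => (P w.1, P w.2))
      (fun w => 7 * (((2 ^ J : ℕ) : ℝ) / max |((tz F w.1 : ℤ) : ℝ) - tz F w.2| 1)) (by
        intro w w' hw hw' e k
        have e1 := Prod.ext_iff.mp e
        rw [hP] at e1
        have e3 := Prod.ext_iff.mp e1.1
        have e4 := Prod.ext_iff.mp e1.2
        have w1 := hbb w hw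
        have w2 := hbb w' hw'
        rw [hW] at w1 w2
        have h := slope_near F hb w1 w2 e3.1 e4.1 e3.2 e4.2 k
        rw [hW]
        exact h)
    refine h1.trans ?_
    rw [Nat.cast_one, one_mul]
    calc Ex q (fun w => Real.log (2 * (7 * (((2 ^ J : ℕ) : ℝ) /
          max |((tz F w.1 : ℤ) : ℝ) - tz F w.2| 1)) + 1))
        ≤ Ex q (fun w => Real.log 15 + ell (2 ^ J) (tz F w.1) (tz F w.2)) :=
          Ex_mono hq fun w _ => by
            have hR := ell_ge F w.1 w.2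
            have hR0 := lt_of_lt_of_le one_pos hR
            unfold ell
            rw [← Real.log_mul (by norm_num) hR0.ne']
            refine Real.log_le_log (by positivity) ?_
            linarith
      _ = Real.log 15 + Ex q (fun w => ell (2 ^ J) (tz F w.1) (tz F w.2)) := by
          rw [Ex_add, Ex_const hq1]
      _ = Gf (2 ^ J) F.p W (tz F) + Real.log 15 := by
          unfold Gf
          rw [← hqd]
          ring
  have b8 : CH q (fun w => (W w.1).1) (fun w => ((W w.1).2, (P w.1, P w.2))) ≤ Real.log 7 := by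
    have h1 := CH_le_vec (d := 1) hq hq1 (fun w => (W w.1).1)
      (fun w => ((W w.1).2, (P w.1, P w.2))) (fun _ => (3 : ℝ)) (by
        intro w w' hw hw' e k
        have e0 := Prod.ext_iff.mp e
        have e1 := Prod.ext_iff.mp e0.2
        rw [hP] at e1
        have e3 := Prod.ext_iff.mp e1.1
        have h5 := e0.1
        rw [hW] at h5
        have h := pos_near F b e3.1 h5 e3.2 k
        rw [hW]
        exact h)
    rw [Ex_const hq1] at h1
    refine h1.trans ?_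
    rw [Nat.cast_one, one_mul]
    norm_num
  linarith

end TwfAux

/-- **TWF**. -/
theorem twf : TWFStmt := by
  have l15 : 0 ≤ Real.log 15 := Real.log_nonneg (by norm_num)
  have l7 : 0 ≤ Real.log 7 := Real.log_nonneg (by norm_num)
  refine ⟨Real.log 15 + Real.log 7 + 1, by linarith, ?_⟩
  intro m J F b hb
  have h := TwfAux.core F b hb
  have hG : 0 ≤ Gf (2 ^ J) F.p (Lb F b) (tz F) := by
    unfold Gf
    refine Ex_nonneg (fun w => dbl_nonneg F.isLaw.nonneg w) fun w _ => ?_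
    unfold ell
    exact Real.log_nonneg (TwfAux.ell_ge F w.1 w.2)
  nlinarith [mul_nonneg (add_nonneg l15 l7) hG]

end Pool.L5
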